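import Mathlib
import Pool.Agent.H89.FreeSubN

set_option autoImplicit false

namespace Pool.Agent.Results.MP_cfda27_lc.NonUnital

open Function FreeAlgebra FirstOrder FirstOrder.Language

/-- the free non-unital associative algebra on `X`: noncommutative polynomials with zero constant
term, i.e. the span of the nonempty words -/
def Aug (k : Type) [Field k] (X : Type) : NonUnitalSubalgebra k (FreeAlgebra k X) where
  carrier := {x | (algebraMapInv x : k) = 0}
  add_mem' := fun {a b} ha hb => by
    simp only [Set.mem_setOf_eq] at ha hb ⊢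
    rw [map_add, ha, hb, add_zero]
  zero_mem' := map_zero _
  mul_mem' := fun {a b} ha _ => by
    simp only [Set.mem_setOf_eq] at ha ⊢
    rw [map_mul, ha, zero_mul]
  smul_mem' := fun c a ha => by
    simp only [Set.mem_setOf_eq] at ha ⊢
    rw [map_smul, ha, smul_zero]

/-- a non-unital algebra is free if it is isomorphic to some `Aug k X` -/
def IsFree (k : Type) [Field k] (F : Type) [NonUnitalRing F] [Module k F] : Prop :=
  ∃ (X : Type) (f : Aug k X →ₙₐ[k] F), Bijective f

/-- the signature: sum, difference, product, one unary operation for each scalar, zero, and a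
unary predicate -/
def Lang0 (k : Type) : FirstOrder.Language.{0, 0} :=
  ⟨fun n => {_b : Fin 3 // n = 2} ⊕ {_c : k // n = 1} ⊕ {_u : Unit // n = 0},
    fun n => {_u : Unit // n = 1}⟩

/-- the structure of a pair `(F, A)` -/
@[reducible] def str0 (k : Type) [Field k] {F : Type} [NonUnitalRing F] [Module k F]
    (A : NonUnitalSubalgebra k F) : (Lang0 k).Structure F :=
  { funMap := fun {n} f xs =>
      Sum.elim
        (fun b : {_b : Fin 3 // n = 2} =>
          if b.1 = 0 then xs (Fin.cast b.2.symm 0) + xs (Fin.cast b.2.symm 1)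
          else if b.1 = 1 then xs (Fin.cast b.2.symm 0) - xs (Fin.cast b.2.symm 1)
          else xs (Fin.cast b.2.symm 0) * xs (Fin.cast b.2.symm 1))
        (Sum.elim (fun c : {_c : k // n = 1} => c.1 • xs (Fin.cast c.2.symm 0))
          (fun _ : {_u : Unit // n = 0} => 0)) f,
    RelMap := fun {n} _ xs => ∀ i, xs i ∈ A }

open Pool.Agent.H66.FreeSub

section aux

variable (k : Type) [Field k]

theorem exists_T0 (S : Set X) (hS : S.Finite) :
    ∃ T : FreeAlgebra k X →ₐ[k] FreeAlgebra k X, Involutive T ∧ (∀ x ∈ AA k, T x ∈ AA k) ∧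
      (∀ l ∈ S, l ∈ X0 → T (ι k l) = ι k l) ∧ (∀ l ∈ S, T (ι k l) ∈ (io k).range) ∧
      ∀ l, (algebraMapInv (T (ι k l)) : k) = 0 := by
  let J : Set GI := ∅
  have hJ : J.Finite := Set.finite_empty
  obtain ⟨N, hN⟩ := (hS.image ll).bddAbove
  obtain ⟨t, h1, h2, h3, h4, h5⟩ := exists_t _ ((hS.image bl).union (hJ.image bg)) N
  have hn : ∀ b n, node (t (tr n b)) n = node (t b) n := fun b n =>
    Subtype.ext (Prod.ext rfl (h2 n _ _ (tr_tr le_rfl b)))
  let T : FreeAlgebra k X →ₐ[k] FreeAlgebra k X := lift k fun l => ι k (tl t l)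
  have hT : ∀ l, T (ι k l) = ι k (tl t l) := fun l => lift_ι_apply _ _
  have hg : ∀ j, T (gen k j) = gen k (tg t j) := by
    intro j
    cases j with
    | d b n => simp only [gen, map_sub, map_mul, hT, tl, tg]; rw [← hn b n]; rfl
    | _ => simp [gen, hT, tl, tg]
  refine ⟨T, fun x => ?_, fun x hx => map_mem T hx _ ?_, fun l hl hl0 => ?_, fun l hl => ?_,
    fun l => ?_⟩
  · have : T.comp T = AlgHom.id k _ := by
      apply hom_ext; funext l
      simp only [comp_apply, AlgHom.comp_apply, hT, AlgHom.id_apply]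
      congr 1
      cases l with
      | s σ =>
        simp only [tl]
        congr 1
        exact (hn _ _).trans (by rw [h1, node_self])
      | g b n => simp only [tl, h1 b]
      | _ => rfl
    exact congrArg (fun f => f x) this
  · rintro _ ⟨j, -, rfl⟩
    rw [hg]; exact gen_mem k _
  · rw [hT]; congr 1
    cases l with
    | s σ =>
      simp only [tl]; congr 1
      exact Subtype.ext (Prod.ext rfl ((h5 _ (hN ⟨_, hl, rfl⟩) _).trans σ.2))
    | g b n => simp only [tl, h3 b (Or.inl ⟨_, hl, rfl⟩) (hl0 b n rfl)]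
    | _ => rfl
  · rw [hT]
    apply X0_range
    cases l with
    | g b n =>
      intro b' n' h
      simp only [tl, X.g.injEq] at h
      exact h.1 ▸ h4 b (Or.inl ⟨_, hl, rfl⟩)
    | _ => intro b' n' h; simp [tl] at h
  · rw [hT]; simp [algebraMapInv]

theorem eps {Y Z : Type} (f : FreeAlgebra k Y →ₐ[k] FreeAlgebra k Z)
    (h : ∀ l, (algebraMapInv (f (ι k l)) : k) = 0) (x : FreeAlgebra k Y) :
    (algebraMapInv (f x) : k) = algebraMapInv x := by
  have : (algebraMapInv : FreeAlgebra k Z →ₐ[k] k).comp f = algebraMapInv := by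
    apply hom_ext; funext l
    simp only [comp_apply, AlgHom.comp_apply, h]
    simp [algebraMapInv]
  exact congrArg (fun g => g x) this

theorem eps_io (x : FreeAlgebra k X') : (algebraMapInv (io k x) : k) = algebraMapInv x :=
  eps k _ (fun l => by cases l <;> simp [io, gen, algebraMapInv]) x

theorem eps_ph (x : FreeAlgebra k X') : (algebraMapInv (ph k x) : k) = algebraMapInv x :=
  eps k _ (fun l => by cases l <;> simp [ph, algebraMapInv]) x

/-- restriction to the augmentation ideals -/
def res {Y Z : Type} (f : FreeAlgebra k Y →ₐ[k] FreeAlgebra k Z)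
    (h : ∀ x, (algebraMapInv (f x) : k) = algebraMapInv x) : Aug k Y →ₙₐ[k] Aug k Z where
  toFun x := ⟨f x.1, (h x.1).trans x.2⟩
  map_smul' c x := Subtype.ext (map_smul f c x.1)
  map_zero' := Subtype.ext (map_zero f)
  map_add' x y := Subtype.ext (map_add f x.1 y.1)
  map_mul' x y := Subtype.ext (map_mul f x.1 y.1)

/-- trace of a subalgebra on the augmentation ideal -/
def Sb {Y : Type} (B : Subalgebra k (FreeAlgebra k Y)) : NonUnitalSubalgebra k (Aug k Y) where
  carrier := {x | x.1 ∈ B}
  add_mem' := fun ha hb => B.add_mem ha hb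
  zero_mem' := B.zero_mem
  mul_mem' := fun ha hb => B.mul_mem ha hb
  smul_mem' := fun c _ ha => B.smul_mem ha c

theorem small0 : IsFree k (Sb k ((AA k).comap (io k))) := by
  refine ⟨X', NonUnitalAlgHom.codRestrict (res k (ph k) (eps_ph k)) _ fun x => ?_,
    fun x y h => ?_, fun y => ?_⟩
  · change ph k x.1 ∈ (AA k).comap (io k)
    rw [comap_eq]; exact ⟨_, rfl⟩
  · exact Subtype.ext (ph_inj k (congrArg (fun z => z.1.1) h))
  · have h : y.1.1 ∈ (ph k).range := (comap_eq k).le y.2
    obtain ⟨x, hx⟩ := h
    have hx' : ph k x = y.1.1 := hx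
    exact ⟨⟨x, (eps_ph k x).symm.trans (by rw [hx']; exact y.1.2)⟩, Subtype.ext (Subtype.ext hx')⟩

/-- removing the constant term -/
def pr {Y : Type} (x : FreeAlgebra k Y) : Aug k Y :=
  ⟨x - algebraMap k _ (algebraMapInv x), by
    change (algebraMapInv _ : k) = 0
    rw [map_sub, AlgHom.commutes]; simp⟩

theorem big0 : ¬ IsFree k (Sb k (AA k)) := by
  rintro ⟨Y, f, hi, hs⟩
  let L : FreeAlgebra k Y →ₐ[k] AA k := lift k fun y => ⟨(f (pr k (ι k y))).1.1, (f _).2⟩
  have hL : ∀ x, (L x : FreeAlgebra k X) =
      algebraMap k _ (algebraMapInv x) + (f (pr k x)).1.1 := by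
    intro x
    induction x using FreeAlgebra.induction with
    | grade0 r =>
      have : pr k (algebraMap k (FreeAlgebra k Y) r) = 0 := Subtype.ext (by simp [pr])
      rw [this, map_zero, AlgHom.commutes, AlgHom.commutes]; simp
    | grade1 y => simp [L, algebraMapInv]
    | mul a b ha hb =>
      have : pr k (a * b) = (algebraMapInv a : k) • pr k b + (algebraMapInv b : k) • pr k a +
          pr k a * pr k b := by
        apply Subtype.ext
        change a * b - _ = (algebraMapInv a : k) • (b - _) + (algebraMapInv b : k) • (a - _) +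
          (a - _) * (b - _)
        simp only [map_mul, Algebra.algebraMap_eq_smul_one, mul_sub, sub_mul, smul_mul_assoc,
          mul_smul_comm, one_mul, mul_one]
        module
      rw [this, map_mul L, MulMemClass.coe_mul, ha, hb, map_add, map_add, map_smul, map_smul,
        map_mul f]
      change _ = _ + ((algebraMapInv a : k) • (f (pr k b)).1.1 +
        (algebraMapInv b : k) • (f (pr k a)).1.1 + (f (pr k a)).1.1 * (f (pr k b)).1.1)
      simp only [map_mul, Algebra.algebraMap_eq_smul_one, mul_add, add_mul, smul_mul_assoc,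
        mul_smul_comm, one_mul, mul_one]
      module
    | add a b ha hb =>
      have : pr k (a + b) = pr k a + pr k b := by
        apply Subtype.ext
        change a + b - _ = (a - _) + (b - _)
        rw [map_add, map_add]; abel
      rw [this, map_add L, AddMemClass.coe_add, ha, hb, map_add f, map_add, map_add]
      change _ = _ + ((f (pr k a)).1.1 + (f (pr k b)).1.1)
      abel
  refine Pool.Agent.H89.FreeSubN.not_free k (AlgEquiv.ofBijective L ⟨?_, fun z => ?_⟩).symm
  · rw [injective_iff_map_eq_zero]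
    intro x hx
    have h1 := hL x
    rw [hx] at h1
    have h2 := congrArg (algebraMapInv : FreeAlgebra k X →ₐ[k] k) h1
    have h3 : (algebraMapInv (f (pr k x)).1.1 : k) = 0 := (f (pr k x)).1.2
    rw [map_add, h3, AlgHom.commutes] at h2
    have h4 : (algebraMapInv x : k) = 0 := by simpa using h2.symm
    rw [h4, map_zero, zero_add] at h1
    have h5 : f (pr k x) = f 0 := by
      rw [map_zero]; exact Subtype.ext (Subtype.ext h1.symm)
    have h6 := congrArg Subtype.val (hi h5)
    simpa [pr, h4] using h6
  · obtain ⟨w, hw⟩ := hs ⟨pr k z.1, (AA k).sub_mem z.2 ((AA k).algebraMap_mem _)⟩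
    refine ⟨algebraMap k _ (algebraMapInv z.1) + w.1, Subtype.ext ?_⟩
    have h1 : (algebraMapInv w.1 : k) = 0 := w.2
    have h2 : pr k w.1 = w := Subtype.ext (by simp [pr, h1])
    rw [map_add, AlgHom.commutes, AddMemClass.coe_add, hL, h1, h2, hw]
    simp [pr]

/-- embedding of pairs -/
def emb0 {F G : Type} [NonUnitalRing F] [Module k F] [NonUnitalRing G] [Module k G]
    (A : NonUnitalSubalgebra k F) (B : NonUnitalSubalgebra k G) (f : F →ₙₐ[k] G)
    (hf : Injective f) (h : ∀ x, f x ∈ B ↔ x ∈ A) :
    @Embedding (Lang0 k) F G (str0 k A) (str0 k B) :=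
  letI := str0 k A
  letI := str0 k B
  { toFun := f
    inj' := hf
    map_fun' := by
      rintro n (⟨b, rfl⟩ | ⟨c, rfl⟩ | ⟨c, rfl⟩) x
      · fin_cases b
        · exact map_add f _ _
        · exact map_sub f _ _
        · exact map_mul f _ _
      · exact map_smul f _ _
      · exact map_zero f
    map_rel' := fun _ x => forall_congr' fun i => h (x i) }

theorem transfer0 (T : (Lang0 k).Theory)
    (h : @Theory.Model _ _ (str0 k (Sb k ((AA k).comap (io k)))) T) :
    @Theory.Model _ _ (str0 k (Sb k (AA k))) T := by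
  letI := str0 k (Sb k ((AA k).comap (io k)))
  letI := str0 k (Sb k (AA k))
  let f := emb0 k (Sb k ((AA k).comap (io k))) (Sb k (AA k)) (res k (io k) (eps_io k))
    (fun x y e => Subtype.ext (LeftInverse.injective (pp_io k) (congrArg Subtype.val e)))
    (fun _ => Iff.rfl)
  refine ((f.toElementaryEmbedding ?_).theory_model_iff T).1 h
  intro n φ x a ha
  choose S hS0 hS h using fun i => fin_adjoin (ι k) X0 (io_mem k (x i).1)
  obtain ⟨S', hS', h'⟩ := fin_supp a.1
  obtain ⟨U, h1, h2, h3, h4, h5⟩ := exists_T0 k _ ((Set.finite_iUnion hS).union hS')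
  have h6 : ∀ i, U (io k (x i).1) = io k (x i).1 := fun i => map_fix U (h i) (by
    rintro _ ⟨l, hl, rfl⟩; exact h3 l (Or.inl (Set.mem_iUnion.2 ⟨i, hl⟩)) (hS0 i hl))
  obtain ⟨b, hb⟩ : U a.1 ∈ (io k).range := map_mem U h' _ (by
    rintro _ ⟨l, hl, rfl⟩; exact h4 l (Or.inr hl))
  have hb' : io k b = U a.1 := hb
  have h7 : Involutive (res k U (eps k U h5)) := fun y => Subtype.ext (h1 y.1)
  let g := emb0 k (Sb k (AA k)) (Sb k (AA k)) (res k U (eps k U h5)) h7.injective
    (fun y => ⟨fun hy => by
      have := h2 _ hy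
      change U (U y.1) ∈ AA k at this
      rw [h1] at this
      exact this, h2 y.1⟩)
  let g' : FirstOrder.Language.Equiv (Lang0 k) (Aug k X) (Aug k X) :=
    { toEquiv := h7.toPerm, map_fun' := fun f x => g.map_fun f x,
      map_rel' := fun r x => g.map_rel r x }
  refine ⟨⟨b, (eps_io k b).symm.trans (by rw [hb', eps k U h5]; exact a.2)⟩, ?_⟩
  have := (StrongHomClass.realize_boundedFormula g' φ).2 ha
  refine Eq.mp (congrArg₂ φ.Realize (funext fun e => e.elim) (Eq.symm ?_)) this
  funext i
  refine Fin.lastCases ?_ (fun i => ?_) i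
  · simp only [Fin.snoc_last, comp_apply]; exact Subtype.ext hb'
  · simp only [Fin.snoc_castSucc, comp_apply]; exact Subtype.ext (h6 i).symm

end aux

/-- Q2 has a negative answer over every field: under the non-unital convention, freeness of a
subalgebra of a free algebra is not first-order axiomatizable within the class of pairs. -/
theorem result : ∀ (k : Type) [Field k], ¬ ∃ T : (Lang0 k).Theory,
    ∀ (F : Type) [NonUnitalRing F] [Module k F] [IsScalarTower k F F] [SMulCommClass k F F],
      IsFree k F → ∀ A : NonUnitalSubalgebra k F,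
        (IsFree k A ↔ @Theory.Model _ F (str0 k A) T) := by
  rintro k _ ⟨T, hT⟩
  have h1 := (hT (Aug k X') ⟨X', NonUnitalAlgHom.id k _, bijective_id⟩ _).1 (small0 k)
  exact big0 k ((hT (Aug k X) ⟨X, NonUnitalAlgHom.id k _, bijective_id⟩ _).2 (transfer0 k T h1))

end Pool.Agent.Results.MP_cfda27_lc.NonUnital
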